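import Pool.Agent.R639.CT.Ex4

/-!
# A Cannon-Thurston lamination whose set of endpoints has positive Hausdorff dimension

Definitions: `Pool.Agent.H322R3.HypDefs` (word-hyperbolic groups, Gromov boundary, convergence
actions), `Pool.Agent.R639.CT.Defs` (`ConvTo`, `basis`, `hausdorffDim`) and
`Pool.Agent.R639.CT.ZDefs` (`ProperOnTriples`, limit set, visual metrics).

The example: `H` is the free group with basis `a, b, c`. To a boundary point `ξ` we associate the
function `Phi ξ` on `H` with values in `{0, 1}` such that `Phi ξ h = 1` iff `h⁻¹ ξ` starts with `c`.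
The set `Z` of the functions `Phi ξ` is closed in the product of the spaces `{0, 1}`, and `Phi` is
the quotient map which identifies `ξ` and `η` iff they both lie in one translate of `∂⟨a, b⟩`. All
points of `∂⟨a, b⟩` are endpoints of leaves.
-/

set_option autoImplicit false

namespace Pool.Agent.Results.MP_d1e581_al.LaminationEndpointsPosDim

open Filter Topology Pool.Agent.H322R3.Hyp Pool.Agent.R639.CT

/-- The free group `H` of rank three with its basis is word-hyperbolic and not virtually cyclic, and
there are a compact metrizable space `Z`, an action of `H` on `Z` by homeomorphisms which is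
properly discontinuous on distinct triples (and is a convergence action with at least three limit
points), and a Cannon-Thurston map `f : ∂H → Z`, i.e. `f` is continuous and for some `z₀` in `Z`
one has `h n • z₀ → f ξ` whenever `h n → ξ ∈ ∂H`; moreover `f` is equivariant. The set of endpoints
of its lamination, `{p | ∃ q ≠ p, f p = f q}`, has positive Hausdorff dimension with respect to
every visual metric on `∂H` (with arbitrary parameter `a > 1`); a visual metric with parameter `2`
exists. -/
theorem result :
    (basis 3).Finite ∧ Subgroup.closure (basis 3) = ⊤ ∧ IsHyperbolic (basis 3) ∧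
    (∀ g : FreeGroup (Fin 3), (Subgroup.zpowers g).index = 0) ∧
    ∃ (Z : Type) (_ : TopologicalSpace Z) (_ : CompactSpace Z)
      (_ : TopologicalSpace.MetrizableSpace Z) (_ : MulAction (FreeGroup (Fin 3)) Z),
      (∀ g : FreeGroup (Fin 3), Continuous fun z : Z => g • z) ∧
      ProperOnTriples (FreeGroup (Fin 3)) Z ∧ IsConvergenceAction (FreeGroup (Fin 3)) Z ∧
      (∃ z₁ ∈ limitSet (FreeGroup (Fin 3)) Z, ∃ z₂ ∈ limitSet (FreeGroup (Fin 3)) Z,
        ∃ z₃ ∈ limitSet (FreeGroup (Fin 3)) Z, z₁ ≠ z₂ ∧ z₁ ≠ z₃ ∧ z₂ ≠ z₃) ∧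
      ∃ f : Boundary (basis 3) → Z, Continuous f ∧
        (∃ z₀ : Z, ∀ (h : ℕ → FreeGroup (Fin 3)) (ξ : Boundary (basis 3)),
          ConvTo (basis 3) h ξ → Tendsto (fun n => h n • z₀) atTop (𝓝 (f ξ))) ∧
        (∀ (g : FreeGroup (Fin 3)) (ξ : Boundary (basis 3)),
          f (bsmul (closure_basis 3) g ξ) = g • f ξ) ∧
        (∀ (a : ℝ), 1 < a → ∀ m : MetricSpace (Boundary (basis 3)), IsVisualCayley (basis 3) a m →
          0 < hausdorffDim m {p | ∃ q, p ≠ q ∧ f p = f q}) ∧
        ∃ m : MetricSpace (Boundary (basis 3)), IsVisualCayley (basis 3) 2 m := by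
  refine ⟨finite_basis 3, closure_basis 3, isHyperbolic_free, index_zpowers, ZZ, inferInstance,
    inferInstance, inferInstance, inferInstance, continuous_smulZ, properOnTriples convZ, convZ,
    ⟨z0, limitZ _, cc • z0, limitZ _, (cc * cc) • z0, limitZ _, three_points⟩, ff3,
    ff3_continuous, ⟨z0, ff3_limit⟩, ff3_smul, fun a ha m hm => ?_, bmetric 3, isVisual_bmetric 3⟩
  refine (dim_bw' a ha m hm).trans_le ?_
  refine @dimH_mono _ (@MetricSpace.toEMetricSpace _ m) _ _ ?_
  rintro _ ⟨w, rfl⟩
  obtain ⟨w', hw'⟩ : ∃ w' : ℕ → Fin 2, w ≠ w' := by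
    refine ⟨fun n => w n + 1, fun h => ?_⟩
    have h1 := congrFun h 0
    revert h1
    generalize w 0 = i
    revert i
    decide
  exact ⟨bw w', fun h => hw' (bw_injective h), (ff3_bw w).trans (ff3_bw w').symm⟩

end Pool.Agent.Results.MP_d1e581_al.LaminationEndpointsPosDim
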